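import Pool.Agent.Q255.IR.Stm

/-!
# Project IR, job NOLIM: the exact asymptotic has no finite price
-/

set_option autoImplicit false

namespace Pool.Agent.Q208.IR

open Filter Topology MeasureTheory Pool.Agent.Q255.IC Pool.Agent.Q255.IR
open scoped ENNReal

theorem V_mono (b : ℕ → ℝ) : Monotone (V b) := by
  apply monotone_nat_of_le_succ
  intro n
  unfold V
  rw [Finset.sum_range_succ]
  linarith [sq_nonneg (b n)]

theorem V_nonneg (b : ℕ → ℝ) (n : ℕ) : 0 ≤ V b n := Finset.sum_nonneg fun _ _ => sq_nonneg _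

/-- the blocks -/
theorem exists_blocks {b : ℕ → ℝ} (hb : Tendsto b atTop (𝓝 0)) (hV : Tendsto (V b) atTop atTop) :
    ∃ N : ℕ → ℕ, StrictMono N ∧
      ∀ j, 1 ≤ V b (N (j + 1)) - V b (N j) ∧ V b (N (j + 1)) - V b (N j) ≤ 2 := by
  obtain ⟨k0, hk0⟩ : ∃ k0, ∀ k, k0 ≤ k → |b k| ≤ 1 := by
    have h1 := (Metric.tendsto_atTop.1 hb) 1 one_pos
    obtain ⟨k0, h2⟩ := h1
    refine ⟨k0, fun k hk => ?_⟩
    have h3 := h2 k hk
    rw [Real.dist_eq, sub_zero] at h3
    exact h3.le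
  have hstep : ∀ a : {a : ℕ // k0 ≤ a}, ∃ a' : {a : ℕ // k0 ≤ a}, a.1 < a'.1 ∧
      1 ≤ V b a'.1 - V b a.1 ∧ V b a'.1 - V b a.1 ≤ 2 := by
    rintro ⟨a, ha⟩
    have hex : ∃ n, V b a + 1 ≤ V b n := (hV.eventually_ge_atTop (V b a + 1)).exists
    classical
    let n := Nat.find hex
    have hn : V b a + 1 ≤ V b n := Nat.find_spec hex
    have han : a < n := by
      by_contra hc
      have := V_mono b (not_lt.1 hc)
      linarith
    refine ⟨⟨n, ha.trans han.le⟩, han, by linarith, ?_⟩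
    have h1 : ¬ V b a + 1 ≤ V b (n - 1) := Nat.find_min hex (by omega)
    rw [not_le] at h1
    have h2 : V b n = V b (n - 1) + b (n - 1) ^ 2 := by
      have h3 : n = (n - 1) + 1 := by omega
      conv_lhs => rw [h3]
      unfold V
      rw [Finset.sum_range_succ]
    have h4 : b (n - 1) ^ 2 ≤ 1 := by
      have h5 := hk0 (n - 1) (by omega)
      rw [← sq_abs]
      nlinarith [abs_nonneg (b (n - 1))]
    show V b n - V b a ≤ 2
    linarith
  choose f hf using hstep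
  let Nn : ℕ → {a : ℕ // k0 ≤ a} := fun j => f^[j] ⟨k0, le_rfl⟩
  have hsucc : ∀ j, Nn (j + 1) = f (Nn j) := fun j => Function.iterate_succ_apply' f j _
  refine ⟨fun j => (Nn j).1, ?_, ?_⟩
  · apply strictMono_nat_of_lt_succ
    intro j
    rw [hsucc]
    exact (hf (Nn j)).1
  · intro j
    simp only [hsucc]
    exact (hf (Nn j)).2

/-- extension of words -/
theorem extend_card {N n : ℕ} (hNn : N ≤ n) (W : Finset (Fin N → Bool)) :
    ∃ W' : Finset (Fin n → Bool), cyl W ⊆ cyl W' ∧ W'.card ≤ W.card * 2 ^ (n - N) := by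
  classical
  refine ⟨Finset.univ.filter (fun s => (fun k : Fin N => s (Fin.castLE hNn k)) ∈ W), ?_, ?_⟩
  · intro ω hω
    show (fun k : Fin n => ω k) ∈ Finset.univ.filter _
    rw [Finset.mem_filter]
    exact ⟨Finset.mem_univ _, hω⟩
  · have h1 : (Finset.univ.filter
        (fun s : Fin n → Bool => (fun k : Fin N => s (Fin.castLE hNn k)) ∈ W)).card ≤
        (W ×ˢ (Finset.univ : Finset (Fin (n - N) → Bool))).card := by
      apply Finset.card_le_card_of_injOn
        (fun s => (fun k : Fin N => s (Fin.castLE hNn k),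
          fun k : Fin (n - N) => s ⟨N + k, by omega⟩))
      · intro s hs
        rw [Finset.mem_coe, Finset.mem_filter] at hs
        rw [Finset.mem_coe, Finset.mem_product]
        exact ⟨hs.2, Finset.mem_univ _⟩
      · intro s _ s' _ he
        simp only [Prod.mk.injEq] at he
        funext k
        by_cases hk : (k : ℕ) < N
        · exact congrFun he.1 ⟨k, hk⟩
        · have h2 := congrFun he.2 ⟨(k : ℕ) - N, by omega⟩
          have h3 : (⟨N + ((k : ℕ) - N), by omega⟩ : Fin n) = k := Fin.ext (by simp; omega)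
          simp only [h3] at h2
          exact h2
    rw [Finset.card_product, Finset.card_univ, Fintype.card_fun, Fintype.card_bool,
      Fintype.card_fin] at h1
    exact h1

/-- the event -/
def Ev (b g h : ℕ → ℝ) (N : ℕ → ℕ) (R δ : ℝ) (J : ℕ) : Set (ℕ → Bool) :=
  {ω | ∃ ρ : ℝ, |ρ| ≤ R ∧ ∀ j, J ≤ j →
    |(S b ω (N (j + 1)) - S b ω (N j)) + ρ * (g (N (j + 1)) - g (N j)) +
      (h (N (j + 1)) - h (N j))| ≤ δ}

theorem Ev_mono (b g h : ℕ → ℝ) (N : ℕ → ℕ) (R δ : ℝ) : Monotone (Ev b g h N R δ) := by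
  rintro J J' hJ ω ⟨ρ, hρ, hω⟩
  exact ⟨ρ, hρ, fun j hj => hω j (hJ.trans hj)⟩

theorem one_step (hDPI : S_DPI) (ν : Measure (ℕ → Bool)) [IsProbabilityMeasure ν] {N n : ℕ}
    (hNn : N ≤ n) (W : Finset (Fin N → Bool)) (q Z θ : ℝ) (hq0 : 0 ≤ q) (hq : q ≤ ν.real (cyl W))
    (hZ : 0 < Z) (hW : (W.card : ℝ) ≤ Z * Real.exp (-θ) * 2 ^ N) :
    q * (θ - Real.log Z) ≤ D ν n + Real.log 2 := by
  have hl2 : 0 < Real.log 2 := Real.log_pos (by norm_num)
  obtain ⟨W', hW', hcard⟩ := extend_card hNn W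
  obtain ⟨hD0, hD1⟩ := hDPI ν n W'
  rcases Nat.eq_zero_or_pos W'.card with h0 | h0
  · have h1 : W' = ∅ := Finset.card_eq_zero.1 h0
    have h2 : cyl W ⊆ ∅ := by
      refine hW'.trans ?_
      intro ω hω
      have h3 : (fun k : Fin n => ω k) ∈ W' := hω
      rw [h1] at h3
      exact absurd h3 (Finset.notMem_empty _)
    have h3 : cyl W = ∅ := Set.subset_empty_iff.1 h2
    rw [h3] at hq
    simp only [measureReal_empty] at hq
    have h4 : q = 0 := le_antisymm hq hq0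
    rw [h4, zero_mul]
    linarith
  · have hWpos : 0 < W.card := by
      by_contra hc
      have : W.card = 0 := by omega
      rw [this] at hcard
      omega
    have hW'0 : (0 : ℝ) < W'.card := by exact_mod_cast h0
    have hcard' : (W'.card : ℝ) ≤ W.card * 2 ^ (n - N) := by exact_mod_cast hcard
    have hle : (W'.card : ℝ) ≤ Z * Real.exp (-θ) * 2 ^ n := by
      calc (W'.card : ℝ) ≤ W.card * 2 ^ (n - N) := hcard'
        _ ≤ (Z * Real.exp (-θ) * 2 ^ N) * 2 ^ (n - N) :=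
          mul_le_mul_of_nonneg_right hW (by positivity)
        _ = Z * Real.exp (-θ) * (2 ^ N * 2 ^ (n - N)) := by ring
        _ = Z * Real.exp (-θ) * 2 ^ n := by
          rw [← pow_add, Nat.add_sub_cancel' hNn]
    have hlog : Real.log W'.card ≤ Real.log Z - θ + n * Real.log 2 := by
      refine (Real.log_le_log hW'0 hle).trans (le_of_eq ?_)
      rw [Real.log_mul (by positivity) (by positivity), Real.log_mul hZ.ne' (Real.exp_ne_zero _),
        Real.log_exp, Real.log_pow]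
      ring
    rcases le_or_gt (θ - Real.log Z) 0 with h5 | h5
    · have h6 : q * (θ - Real.log Z) ≤ 0 := mul_nonpos_of_nonneg_of_nonpos hq0 h5
      linarith
    · have h6 : θ - Real.log Z ≤ n * Real.log 2 - Real.log W'.card := by linarith
      have h7 : q ≤ ν.real (cyl W') := hq.trans (measureReal_mono hW')
      calc q * (θ - Real.log Z) ≤ ν.real (cyl W') * (n * Real.log 2 - Real.log W'.card) :=
            mul_le_mul h7 h6 h5.le measureReal_nonneg
        _ ≤ D ν n + Real.log 2 := hD1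

/-- an elementary fact -/
theorem growth (a B : ℝ) (ha : 0 < a) : ∃ M : ℕ, ∀ m : ℕ, M ≤ m →
    B < a * m - 2 * Real.log ((m : ℝ) + 1) := by
  obtain ⟨M, hM⟩ := exists_nat_ge ((5 / a + |B| + a + 1) ^ 2)
  refine ⟨M, fun m hm => ?_⟩
  have hm' : (5 / a + |B| + a + 1) ^ 2 ≤ (m : ℝ) + 1 := by
    have : (M : ℝ) ≤ m := by exact_mod_cast hm
    linarith
  set s : ℝ := Real.sqrt ((m : ℝ) + 1) with hs
  have hm0 : (0 : ℝ) ≤ (m : ℝ) + 1 := by positivity
  have hs2 : s ^ 2 = (m : ℝ) + 1 := Real.sq_sqrt hm0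
  have hs1 : 5 / a + |B| + a + 1 ≤ s := Real.le_sqrt_of_sq_le hm'
  have h5a : 0 < 5 / a := by positivity
  have hB := abs_nonneg B
  have hlog : Real.log ((m : ℝ) + 1) ≤ 2 * s := by
    have h1 := Real.log_le_rpow_div hm0 (by norm_num : (0 : ℝ) < 1 / 2)
    rw [← Real.sqrt_eq_rpow, ← hs] at h1
    linarith
  have h6 : 5 ≤ a * s := by
    have h7 : a * (5 / a) ≤ a * s := mul_le_mul_of_nonneg_left (by linarith) ha.le
    rwa [mul_div_cancel₀ _ ha.ne'] at h7
  have hs0 : 0 < s := by linarith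
  have h8 : 5 * s ≤ a * s * s := mul_le_mul_of_nonneg_right h6 hs0.le
  have h9 : a * (m : ℝ) = a * s * s - a := by
    have : (m : ℝ) = s ^ 2 - 1 := by linarith
    rw [this]; ring
  have h10 := le_abs_self B
  linarith

theorem ev_le (C : ℝ) (hC : 1 ≤ C)
    (hBL : ∀ (b g h : ℕ → ℝ) (N : ℕ → ℕ) (J m : ℕ) (R G δ : ℝ), StrictMono N → J ≤ m →
    0 ≤ R → 0 < δ → 3 * δ ≤ 1 → δ ≤ G → (∀ k, N J ≤ k → |b k| ≤ δ) →
    (∀ j, 1 ≤ V b (N (j + 1)) - V b (N j) ∧ V b (N (j + 1)) - V b (N j) ≤ 2) →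
    (∀ j, j < m → |g (N (j + 1)) - g (N j)| ≤ G) →
    ∃ W : Finset (Fin (N m) → Bool), (W.card : ℝ) ≤ (4 * R * G / δ + 2) * (C * δ) ^ (m - J) * 2 ^ (N m) ∧
      {ω | ∃ ρ : ℝ, |ρ| ≤ R ∧ ∀ j, J ≤ j → j < m →
        |(S b ω (N (j + 1)) - S b ω (N j)) + ρ * (g (N (j + 1)) - g (N j)) +
          (h (N (j + 1)) - h (N j))| ≤ δ} ⊆ cyl W)
    (hDPI : S_DPI) (ν : Measure (ℕ → Bool)) [IsProbabilityMeasure ν] (b g h : ℕ → ℝ) (A : ℝ)
    (hg : ∀ᶠ n in atTop, |g n| ≤ V b n ^ 2)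
    (hD : ∃ᶠ n in atTop, D ν n ≤ A * V b n) (N : ℕ → ℕ) (hN : StrictMono N)
    (hblk : ∀ j, 1 ≤ V b (N (j + 1)) - V b (N j) ∧ V b (N (j + 1)) - V b (N j) ≤ 2)
    (R δ t : ℝ) (hR : 0 ≤ R) (hδ : 0 < δ) (hδ3 : 3 * δ ≤ 1) (ht : C * δ = Real.exp (-t))
    (ht0 : 0 ≤ t) (J : ℕ) (hJ : ∀ k, N J ≤ k → |b k| ≤ δ) :
    ν.real (Ev b g h N R δ J) * t ≤ 2 * |A| := by
  by_contra hcon
  rw [not_le] at hcon
  set q : ℝ := ν.real (Ev b g h N R δ J) with hq
  have hq0 : 0 ≤ q := measureReal_nonneg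
  have hq1 : q ≤ 1 := measureReal_le_one
  -- bound for g
  obtain ⟨k1, hk1⟩ := eventually_atTop.1 hg
  set G0 : ℝ := ∑ k ∈ Finset.range k1, |g k| with hG0
  have hG00 : 0 ≤ G0 := Finset.sum_nonneg fun _ _ => abs_nonneg _
  have hgb : ∀ k, |g k| ≤ G0 + V b k ^ 2 := by
    intro k
    by_cases hk : k < k1
    · have h1 : |g k| ≤ G0 := Finset.single_le_sum (f := fun k => |g k|)
        (fun _ _ => abs_nonneg _) (Finset.mem_range.2 hk)
      have := sq_nonneg (V b k)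
      linarith
    · have h1 := hk1 k (by omega)
      linarith
  set V0 : ℝ := V b (N 0) with hV0
  have hV00 : 0 ≤ V0 := V_nonneg _ _
  have hVN : ∀ m : ℕ, V b (N m) ≤ V0 + 2 * m := by
    intro m
    induction m with
    | zero => simp [hV0]
    | succ m ih =>
      have h1 := (hblk m).2
      push_cast
      linarith
  let G : ℕ → ℝ := fun m => 2 * (G0 + (V0 + 2 * m) ^ 2) + 1
  have hG : ∀ m j : ℕ, j < m → |g (N (j + 1)) - g (N j)| ≤ G m := by
    intro m j hj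
    have h1 : ∀ i : ℕ, i ≤ m → |g (N i)| ≤ G0 + (V0 + 2 * m) ^ 2 := by
      intro i hi
      refine (hgb (N i)).trans ?_
      have h2 : V b (N i) ≤ V0 + 2 * m := by
        refine (hVN i).trans ?_
        have : (i : ℝ) ≤ m := by exact_mod_cast hi
        linarith
      have h3 := pow_le_pow_left₀ (V_nonneg b (N i)) h2 2
      linarith
    have h4 := abs_sub (g (N (j + 1))) (g (N j))
    have h5 := h1 (j + 1) hj
    have h6 := h1 j hj.le
    simp only [G]
    linarith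
  set c : ℝ := 4 * R * (2 * (G0 + (V0 + 2) ^ 2) + 1) / δ + 2 with hc
  have hc2 : 2 ≤ c := by
    have : 0 ≤ 4 * R * (2 * (G0 + (V0 + 2) ^ 2) + 1) / δ := by positivity
    linarith
  have hZ : ∀ m : ℕ, 4 * R * G m / δ + 2 ≤ c * ((m : ℝ) + 1) ^ 2 := by
    intro m
    have hm0 : (0 : ℝ) ≤ m := Nat.cast_nonneg m
    have hm1 : (1 : ℝ) ≤ ((m : ℝ) + 1) ^ 2 := by nlinarith
    have h1 : V0 + 2 * m ≤ (V0 + 2) * ((m : ℝ) + 1) := by nlinarith
    have h2 : (V0 + 2 * (m : ℝ)) ^ 2 ≤ ((V0 + 2) * ((m : ℝ) + 1)) ^ 2 :=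
      pow_le_pow_left₀ (by positivity) h1 2
    have h3 : G m ≤ (2 * (G0 + (V0 + 2) ^ 2) + 1) * ((m : ℝ) + 1) ^ 2 := by
      simp only [G]
      nlinarith
    have h4 : 4 * R * G m / δ ≤
        4 * R * (2 * (G0 + (V0 + 2) ^ 2) + 1) / δ * ((m : ℝ) + 1) ^ 2 := by
      rw [div_mul_eq_mul_div]
      apply div_le_div_of_nonneg_right _ hδ.le
      calc 4 * R * G m ≤ 4 * R * ((2 * (G0 + (V0 + 2) ^ 2) + 1) * ((m : ℝ) + 1) ^ 2) :=
            mul_le_mul_of_nonneg_left h3 (by positivity)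
        _ = _ := by ring
    rw [hc, add_mul]
    linarith
  -- growth
  have ha : 0 < q * t - 2 * |A| := by linarith
  obtain ⟨M, hM⟩ := growth (q * t - 2 * |A|)
    (q * t * J + Real.log c + |A| * (V0 + 2) + Real.log 2) ha
  obtain ⟨n, hn1, hn2⟩ := (frequently_atTop.1 hD) (N (M + J))
  -- the block of `n`
  obtain ⟨m, hmM, hmn, hmn'⟩ : ∃ m, M + J ≤ m ∧ N m ≤ n ∧ n < N (m + 1) := by
    classical
    have hex : ∃ i, n < N (M + J + i + 1) :=
      ⟨n, lt_of_lt_of_le (by omega : n < M + J + n + 1) (hN.id_le _)⟩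
    set i := Nat.find hex with hi
    have h1 : n < N (M + J + i + 1) := Nat.find_spec hex
    refine ⟨M + J + i, by omega, ?_, h1⟩
    rcases Nat.eq_zero_or_pos i with h0 | h0
    · rw [h0]
      exact hn1
    · have h2 : ¬ n < N (M + J + (i - 1) + 1) := Nat.find_min hex (by omega)
      rw [show M + J + (i - 1) + 1 = M + J + i by omega] at h2
      omega
  have hJm : J ≤ m := by omega
  obtain ⟨W, hW1, hW2⟩ := hBL b g h N J m R (G m) δ hN hJm hR hδ hδ3 (by
    have h1 : 0 ≤ (V0 + 2 * (m : ℝ)) ^ 2 := sq_nonneg _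
    simp only [G]
    linarith) hJ hblk (hG m)
  have hsub : Ev b g h N R δ J ⊆ cyl W := by
    refine Set.Subset.trans ?_ hW2
    rintro ω ⟨ρ, hρ, hω⟩
    exact ⟨ρ, hρ, fun j hj _ => hω j hj⟩
  have hZpos : 0 < 4 * R * G m / δ + 2 := by
    have h1 : 0 ≤ G m := by
      have h2 : 0 ≤ (V0 + 2 * (m : ℝ)) ^ 2 := sq_nonneg _
      simp only [G]
      linarith
    have h3 : 0 ≤ 4 * R * G m / δ := by positivity
    linarith
  have hpow : (C * δ) ^ (m - J) = Real.exp (-(t * ((m : ℝ) - J))) := by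
    rw [ht, ← Real.exp_nat_mul, Nat.cast_sub hJm]
    congr 1
    ring
  rw [hpow] at hW1
  have h1 := one_step hDPI ν hmn W q (4 * R * G m / δ + 2) (t * ((m : ℝ) - J)) hq0
    (measureReal_mono hsub) hZpos hW1
  have h2 : Real.log (4 * R * G m / δ + 2) ≤ Real.log c + 2 * Real.log ((m : ℝ) + 1) := by
    refine (Real.log_le_log hZpos (hZ m)).trans (le_of_eq ?_)
    rw [Real.log_mul (by positivity) (by positivity), Real.log_pow]
    push_cast
    ring
  have h3 : 0 ≤ Real.log c + 2 * Real.log ((m : ℝ) + 1) := by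
    have h4 : 0 ≤ Real.log c := Real.log_nonneg (by linarith)
    have h5 : 0 ≤ Real.log ((m : ℝ) + 1) := Real.log_nonneg (by
      have : (0 : ℝ) ≤ m := Nat.cast_nonneg m
      linarith)
    linarith
  have h4 : D ν n ≤ |A| * (V0 + 2 * ((m : ℝ) + 1)) := by
    have h5 : V b n ≤ V0 + 2 * ((m : ℝ) + 1) := by
      have h6 := V_mono b hmn'.le
      have h7 := hVN (m + 1)
      push_cast at h7
      linarith
    calc D ν n ≤ A * V b n := hn2
      _ ≤ |A| * V b n := mul_le_mul_of_nonneg_right (le_abs_self A) (V_nonneg b n)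
      _ ≤ _ := mul_le_mul_of_nonneg_left h5 (abs_nonneg A)
  have h5 : q * (t * ((m : ℝ) - J) - (Real.log c + 2 * Real.log ((m : ℝ) + 1))) ≤
      |A| * (V0 + 2 * ((m : ℝ) + 1)) + Real.log 2 := by
    have h6 : q * (t * ((m : ℝ) - J) - (Real.log c + 2 * Real.log ((m : ℝ) + 1))) ≤
        q * (t * ((m : ℝ) - J) - Real.log (4 * R * G m / δ + 2)) :=
      mul_le_mul_of_nonneg_left (by linarith) hq0
    linarith
  have h6 : q * (Real.log c + 2 * Real.log ((m : ℝ) + 1)) ≤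
      Real.log c + 2 * Real.log ((m : ℝ) + 1) := by nlinarith
  have h7 := hM m (by omega)
  have e1 : q * (t * ((m : ℝ) - J) - (Real.log c + 2 * Real.log ((m : ℝ) + 1))) =
      q * t * m - q * t * J - q * (Real.log c + 2 * Real.log ((m : ℝ) + 1)) := by ring
  have e2 : (q * t - 2 * |A|) * (m : ℝ) = q * t * m - 2 * |A| * m := by ring
  have e3 : |A| * (V0 + 2 * ((m : ℝ) + 1)) = |A| * (V0 + 2) + 2 * |A| * m := by ring
  rw [e1, e3] at h5
  rw [e2] at h7
  linarith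

theorem nolim (hB : S_BLOCKS) (hDPI : S_DPI) : S_NOLIM := by
  intro ν _ b g h A hb hV hg hD
  obtain ⟨C, hC, hBL⟩ := hB
  obtain ⟨N, hN, hblk⟩ := exists_blocks hb hV
  have hC0 : 0 < C := by linarith
  -- the sets with bounded `ρ`
  let L : ℕ → Set (ℕ → Bool) := fun R =>
    {ω | ∃ ρ l : ℝ, |ρ| ≤ R ∧ Tendsto (fun n => S b ω n + ρ * g n + h n) atTop (𝓝 l)}
  have hL : ∀ R, ν (L R) = 0 := by
    intro R
    have hbound : ∀ T : ℕ, ν (L R) * (T : ℝ≥0∞) ≤ ENNReal.ofReal (2 * |A|) := by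
      intro T
      set δ : ℝ := Real.exp (-(T : ℝ)) / (3 * C) with hδ
      have hδ0 : 0 < δ := by positivity
      have he1 : Real.exp (-(T : ℝ)) ≤ 1 := by
        rw [Real.exp_le_one_iff]
        have : (0 : ℝ) ≤ T := Nat.cast_nonneg T
        linarith
      have hδ3 : 3 * δ ≤ 1 := by
        rw [hδ, mul_div_assoc', div_le_one (by positivity)]
        nlinarith
      have hl3 : 0 < Real.log 3 := Real.log_pos (by norm_num)
      have hCδ : C * δ = Real.exp (-((T : ℝ) + Real.log 3)) := by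
        rw [neg_add, Real.exp_add, Real.exp_neg (Real.log 3), Real.exp_log (by norm_num), hδ]
        field_simp
      obtain ⟨J0, hJ0⟩ : ∃ J0, ∀ k, N J0 ≤ k → |b k| ≤ δ := by
        obtain ⟨k2, hk2⟩ := (Metric.tendsto_atTop.1 hb) δ hδ0
        refine ⟨k2, fun k hk => ?_⟩
        have h1 := hk2 k ((hN.id_le k2).trans hk)
        rw [Real.dist_eq, sub_zero] at h1
        exact h1.le
      have hsub : L R ⊆ ⋃ J, Ev b g h N R δ J := by
        rintro ω ⟨ρ, l, hρ, hl⟩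
        have h1 : Tendsto (fun j => S b ω (N j) + ρ * g (N j) + h (N j)) atTop (𝓝 l) :=
          hl.comp hN.tendsto_atTop
        have h2 : Tendsto (fun j => S b ω (N (j + 1)) + ρ * g (N (j + 1)) + h (N (j + 1))) atTop
            (𝓝 l) := h1.comp (tendsto_add_atTop_nat 1)
        have h3 := h2.sub h1
        rw [sub_self] at h3
        obtain ⟨J, hJ⟩ := (Metric.tendsto_atTop.1 h3) δ hδ0
        refine Set.mem_iUnion.2 ⟨J, ρ, hρ, fun j hj => ?_⟩
        have h4 := hJ j hj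
        rw [Real.dist_eq, sub_zero] at h4
        refine le_trans (le_of_eq ?_) h4.le
        congr 1
        ring
      have hev : ∀ J, ν (Ev b g h N R δ J) * (T : ℝ≥0∞) ≤ ENNReal.ofReal (2 * |A|) := by
        intro J
        have h1 := ev_le C hC hBL hDPI ν b g h A hg hD N hN hblk R δ ((T : ℝ) + Real.log 3)
          (Nat.cast_nonneg R) hδ0 hδ3 hCδ (by positivity) (max J J0)
          (fun k hk => hJ0 k ((hN.monotone (le_max_right _ _)).trans hk))
        have h2 : ν (Ev b g h N R δ J) ≤ ν (Ev b g h N R δ (max J J0)) :=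
          measure_mono (Ev_mono b g h N R δ (le_max_left _ _))
        have h3 : ν.real (Ev b g h N R δ (max J J0)) * (T : ℝ) ≤ 2 * |A| := by
          refine le_trans (mul_le_mul_of_nonneg_left ?_ measureReal_nonneg) h1
          linarith
        calc ν (Ev b g h N R δ J) * (T : ℝ≥0∞)
            ≤ ν (Ev b g h N R δ (max J J0)) * (T : ℝ≥0∞) := mul_le_mul_left h2 _
          _ = ENNReal.ofReal (ν.real (Ev b g h N R δ (max J J0)) * (T : ℝ)) := by
              rw [ENNReal.ofReal_mul measureReal_nonneg, ofReal_measureReal,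
                ENNReal.ofReal_natCast]
          _ ≤ ENNReal.ofReal (2 * |A|) := ENNReal.ofReal_le_ofReal h3
      calc ν (L R) * (T : ℝ≥0∞) ≤ ν (⋃ J, Ev b g h N R δ J) * (T : ℝ≥0∞) :=
            mul_le_mul_left (measure_mono hsub) _
        _ = (⨆ J, ν (Ev b g h N R δ J)) * (T : ℝ≥0∞) := by
            rw [(Ev_mono b g h N R δ).measure_iUnion]
        _ = ⨆ J, ν (Ev b g h N R δ J) * (T : ℝ≥0∞) := ENNReal.iSup_mul _ _
        _ ≤ ENNReal.ofReal (2 * |A|) := iSup_le hev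
    by_contra hne
    have hfin : ν (L R) ≠ ⊤ := measure_ne_top ν _
    obtain ⟨T, hT⟩ := ENNReal.exists_nat_gt
      (ENNReal.div_ne_top ENNReal.ofReal_ne_top hne : ENNReal.ofReal (2 * |A|) / ν (L R) ≠ ⊤)
    have h1 := hbound T
    rw [ENNReal.div_lt_iff (Or.inl hne) (Or.inl hfin), mul_comm (T : ℝ≥0∞)] at hT
    exact absurd h1 (not_le.2 hT)
  have hall : {ω | ∃ ρ l : ℝ, Tendsto (fun n => S b ω n + ρ * g n + h n) atTop (𝓝 l)} ⊆
      ⋃ R, L R := by
    rintro ω ⟨ρ, l, hl⟩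
    obtain ⟨R, hR⟩ := exists_nat_ge |ρ|
    exact Set.mem_iUnion.2 ⟨R, ρ, l, hR, hl⟩
  exact measure_mono_null hall (measure_iUnion_null hL)

end Pool.Agent.Q208.IR
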